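import Pool.Agent.Helper58_MOO.Stmts

/-! LUU: accepted sets can be enlarged. -/

open Cardinal
open Pool.Agent.Helper69_LOTS

namespace Pool.Agent.MOO.H12

open Node

theorem mts_mono {A B : Set Node} (h : A ⊆ B) : mts A ⊆ mts B := by
  rintro w ⟨s, hs, t, ht, hw⟩
  exact ⟨s, h hs, t, h ht, hw⟩

/-- Shrinking a subtree to be null for finitely many colourings. -/
theorem shrink {T : Set Node} {ι : Type} (I : Finset ι) (Q A : ι → Set Node)
    (hI : ∀ i ∈ I, DNull T (Q i) (A i)) (V : Set Node) (hV : Sub T V)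
    (hVA : ∀ i ∈ I, V ⊆ A i) :
    ∃ D, D ⊆ V ∧ Sub T D ∧ ∀ i ∈ I, ∀ w ∈ mts D, w ∉ Q i := by
  classical
  induction I using Finset.induction_on with
  | empty => exact ⟨V, le_rfl, hV, by simp⟩
  | insert i I hi ih =>
    obtain ⟨D, hD, hD2, hD3⟩ := ih (fun j hj => hI j (Finset.mem_insert_of_mem hj))
      (fun j hj => hVA j (Finset.mem_insert_of_mem hj))
    obtain ⟨E, hE, hE2, hE3⟩ := hI i (Finset.mem_insert_self _ _) D
      (hD.trans (hVA i (Finset.mem_insert_self _ _))) hD2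
    refine ⟨E, hE.trans hD, hE2, fun j hj w hw => ?_⟩
    rcases Finset.mem_insert.1 hj with rfl | hj
    · exact hE3 w hw
    · exact hD3 j hj w (mts_mono hE hw)

theorem orb_union (f f' : Finset (Finset Om)) (t : Node) :
    orb (f ∪ f') t = orb f t ∪ orb f' t := by
  ext s
  simp only [orb, Set.mem_ofPred_eq, Finset.mem_union, Set.mem_union]
  constructor
  · rintro ⟨g, hg | hg, rfl⟩
    · exact Or.inl ⟨g, hg, rfl⟩
    · exact Or.inr ⟨g, hg, rfl⟩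
  · rintro (⟨g, hg, rfl⟩ | ⟨g, hg, rfl⟩)
    · exact ⟨g, Or.inl hg, rfl⟩
    · exact ⟨g, Or.inr hg, rfl⟩

theorem orb_image (e : Finset (Finset Om)) (g : Finset Om) (t : Node) :
    orb (e.image (fun e' => symmDiff e' g)) t = orb e (flip g t) := by
  ext s
  simp only [orb, Set.mem_ofPred_eq, Finset.mem_image]
  constructor
  · rintro ⟨_, ⟨e', he', rfl⟩, rfl⟩
    exact ⟨e', he', (flip_flip _ _ _).symm⟩
  · rintro ⟨e', he', rfl⟩
    exact ⟨_, ⟨e', he', rfl⟩, flip_flip _ _ _⟩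

theorem exists_bound (h : Finset (Finset Om)) : ∃ β : Om, ∀ g ∈ h, ∀ ξ ∈ g, ξ < β := by
  obtain ⟨β, hβ⟩ := Om_bdd (A := ⋃ g ∈ h, (g : Set Om))
    (Set.Countable.biUnion h.countable_toSet (fun g _ => g.countable_toSet))
  exact ⟨β, fun g hg ξ hξ => hβ ξ (Set.mem_biUnion (Finset.mem_coe.2 hg) hξ)⟩

theorem luu (hNcl : NclStmt) : LuuStmt := by
  classical
  intro pfa T K A C hT hL hA B e hB hBext hBnn
  -- the null cover for the part of `B` comparable with `x`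
  have h1 : ∀ x : Node, ∃ (h : Finset (Finset Om)) (D : Set Node), x ∈ B → h.Nonempty ∧ Sub T D ∧
      (∀ g ∈ h, ∀ s ∈ D, flip g s ∈ B ∧ (flip g s ≤ x ∨ x ≤ flip g s)) ∧
      ∀ w ∈ mts D, ∃ g ∈ h, flip g w ∈ Kf K e := by
    intro x
    by_cases hx : x ∈ B
    swap
    · exact ⟨∅, ∅, fun h => absurd h hx⟩
    have hsub : Sub T {s | s ∈ B ∧ (s ≤ x ∨ x ≤ s)} := by
      refine ⟨fun s hs => hB.1 hs.1, fun s hs ξ => ⟨hB.2.1 s hs.1 ξ, ?_⟩, fun δ => ?_⟩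
      · rcases hs.2 with h | h
        · exact Or.inl ((res_le _ _).trans h)
        · rcases le_total x.ht ξ with h2 | h2
          · exact Or.inr (le_res h h2)
          · left
            rw [res_eq_of_le h h2]
            exact res_le _ _
      · rcases le_total x.ht δ with h2 | h2
        · obtain ⟨t, ht, h3, h4⟩ := hBext x hx δ h2
          exact ⟨t, ⟨ht, Or.inr h3⟩, h4⟩
        · exact ⟨x.res δ, ⟨hB.2.1 x hx δ, Or.inl (res_le _ _)⟩, res_ht_of_le h2⟩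
    obtain ⟨h, D, hne, hD, h2, h3⟩ := hNcl pfa T hT (Kf K e) _ hsub
      (fun E hE hE' => hBnn E (hE.trans (fun s hs => hs.1)) hE')
    exact ⟨h, D, fun _ => ⟨hne, hD, h2, h3⟩⟩
  choose h D hD using h1
  choose β hβ using fun x => exists_bound (h x)
  obtain ⟨βe, hβe⟩ := exists_bound e
  -- the club
  let X : Type := Om ⊕ {s // s ∈ T}
  have hXne : Nonempty X := ⟨Sum.inl (Classical.arbitrary Om)⟩
  have ho : Function.Injective (Sum.inl : Om → X) := Sum.inl_injective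
  have hi : Function.Injective (Sum.inr : {s // s ∈ T} → X) := Sum.inr_injective
  have c0 := CM.skolem0 (X := X) (k := (Sum.inl : Om → X)) (fun c => c = βe)
  have c1 := CM.skolem1 (X := X) (k := (Sum.inl : Om → X)) hi (fun a c => c = β a.1)
  have c2 := CM.skolemL (X := X) (fun L y => ∃ x : {s // s ∈ T}, ∃ l : List Om,
    L = Sum.inr x :: l.map Sum.inl ∧ ∃ ε, y = Sum.inl ε ∧
      ¬ ∃ t ∈ D x.1, t.ht = ε ∧ ∀ η ∈ l, t ∈ A η)
  have c3 := CM.rank (X := X) ho hi (fun a => a.1.ht) (by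
    intro δ
    refine Set.Countable.mono ?_ ((hT.lev δ).preimage Subtype.val_injective)
    intro a ha
    exact ⟨a.2, ha⟩)
  obtain ⟨C1, hC1, hM⟩ := CM.clbX ho (((c0.and c1).and c2).and c3)
  refine ⟨C1 ∩ C, hC1.inter hL.clb, fun δ hδ => hδ.2, ?_, ?_⟩
  · rintro δ ⟨hδ1, -⟩
    obtain ⟨M, -, ⟨⟨⟨m0, -⟩, -⟩, -⟩, hMδ⟩ := hM δ hδ1
    obtain ⟨c, hc, rfl⟩ := m0 ⟨_, rfl⟩
    intro g hg ξ hξ
    exact (hβe g hg ξ hξ).trans ((hMδ _).1 hc)
  rintro δ ⟨hδ1, hδC⟩ x hx hxδ Y hY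
  obtain ⟨M, -, ⟨⟨⟨m0, m1⟩, m2⟩, m3⟩, hMδ⟩ := hM δ hδ1
  have hxT : x ∈ T := hB.1 hx
  have hxM : (Sum.inr ⟨x, hxT⟩ : X) ∈ M := (m3 ⟨x, hxT⟩).2 ((hMδ _).2 hxδ)
  have hbe : Below e δ := by
    obtain ⟨c, hc, rfl⟩ := m0 ⟨_, rfl⟩
    intro g hg ξ hξ
    exact (hβe g hg ξ hξ).trans ((hMδ _).1 hc)
  have hbx : Below (h x) δ := by
    obtain ⟨c, hc, rfl⟩ := m1 ⟨x, hxT⟩ hxM ⟨_, rfl⟩
    intro g hg ξ hξ
    exact (hβ x g hg ξ hξ).trans ((hMδ _).1 hc)
  obtain ⟨hne, hDs, hD1, hD2⟩ := hD x hx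
  -- closure
  have hclos : ∀ l : List Om, (∀ η ∈ l, η < δ) → (∃ t ∈ D x, t.ht = δ ∧ ∀ η ∈ l, t ∈ A η) →
      ∀ ε, ∃ t ∈ D x, t.ht = ε ∧ ∀ η ∈ l, t ∈ A η := by
    intro l hl ht ε
    by_contra hcon
    obtain ⟨y, hy, x', l', he, ε', rfl, hbad⟩ := m2 (Sum.inr ⟨x, hxT⟩ :: l.map Sum.inl) (by
      intro a ha
      rcases List.mem_cons.1 ha with rfl | ha
      · exact hxM
      · obtain ⟨η, hη, rfl⟩ := List.mem_map.1 ha
        exact (hMδ _).2 (hl η hη)) ⟨Sum.inl ε, ⟨x, hxT⟩, l, rfl, ε, rfl, hcon⟩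
    simp only [List.cons.injEq] at he
    obtain ⟨he1, he2⟩ := he
    have he1 := hi he1
    have he3 : l = l' := (List.map_injective_iff.2 ho) he2
    subst he3
    rw [← he1] at hbad
    have hε : ε' < δ := (hMδ _).1 hy
    obtain ⟨t, htD, hth, htA⟩ := ht
    exact hbad ⟨t.res ε', hDs.2.1 t htD ε', res_ht_of_le (by rw [hth]; exact hε.le),
      fun η hη => (hL.tree η).2 t (htA η hη) ε'⟩
  obtain ⟨s, hsD, hsh⟩ := hDs.2.2 δ
  have hsT : s ∈ T := hDs.1 hsD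
  -- `Y` as an orbit of `s`
  have hYrep : ∃ f, Below f δ ∧ Y = orb f s := by
    obtain ⟨t, htT, hth, f, hf, rfl, -⟩ := hY
    refine hA.rep δ hδC s hsT hsh _ ?_ ?_
    · have : orb f t = (fun g => flip g t) '' (f : Set (Finset Om)) := by
        ext u
        simp only [orb, Set.mem_ofPred_eq, Set.mem_image, Finset.mem_coe]
        constructor
        · rintro ⟨g, hg, rfl⟩; exact ⟨g, hg, rfl⟩
        · rintro ⟨g, hg, rfl⟩; exact ⟨g, hg, rfl⟩
      rw [this]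
      exact f.finite_toSet.image _
    · rintro u ⟨g, hg, rfl⟩
      exact ⟨hT.flip t htT g, hth⟩
  obtain ⟨f, hf, rfl⟩ := hYrep
  obtain ⟨η, hη, hsη, hnn⟩ := hA.base δ hδC f hf s hsT hsh hY
  by_contra hcon
  have hz : ∀ g ∈ h x, flip g s ∈ B ∧ x ≤ flip g s := by
    intro g hg
    obtain ⟨h2, h3⟩ := hD1 g hg s hsD
    refine ⟨h2, h3.resolve_left (fun h4 => ?_)⟩
    have := h4.1
    rw [flip_ht, hsh] at this
    exact absurd hxδ (not_lt.2 this)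
  let fg : Finset Om → Finset (Finset Om) := fun g => f ∪ e.image (fun e' => symmDiff e' g)
  have hrej : ∀ g : Finset Om, ∃ ηg : Om, g ∈ h x →
      ηg < δ ∧ s ∈ A ηg ∧ DNull T (Kf K (fg g)) (A ηg) := by
    intro g
    by_cases hg : g ∈ h x
    swap
    · exact ⟨η, fun h' => absurd h' hg⟩
    have hbel : Below (fg g) δ := by
      intro g' hg' ξ hξ
      rcases Finset.mem_union.1 hg' with h2 | h2
      · exact hf g' h2 ξ hξ
      · obtain ⟨e', he', rfl⟩ := Finset.mem_image.1 h2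
        rcases Finset.mem_symmDiff.1 hξ with h3 | h3
        · exact hbe e' he' ξ h3.1
        · exact hbx g hg ξ h3.1
    have hna : ¬ Acc T K A δ (orb (fg g) s) := by
      intro hacc
      apply hcon
      refine ⟨flip g s, (hz g hg).1, (hz g hg).2, hsh, ?_⟩
      rw [orb_union, orb_image] at hacc
      exact hacc
    obtain ⟨ηg, h2⟩ := hA.dich δ hδC (fg g) hbel s hsT hsh hna
    exact ⟨ηg, fun _ => h2⟩
  choose ηg hηg using hrej
  -- the subtree `V`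
  let l : List Om := η :: ((h x).image ηg).toList
  have hl : ∀ ξ, ξ ∈ l ↔ ξ = η ∨ ∃ g ∈ h x, ηg g = ξ := by
    intro ξ
    simp only [l, List.mem_cons, Finset.mem_toList, Finset.mem_image]
  have hV := hclos l (by
    intro ξ hξ
    rcases (hl ξ).1 hξ with rfl | ⟨g, hg, rfl⟩
    · exact hη
    · exact (hηg g hg).1) ⟨s, hsD, hsh, by
      intro ξ hξ
      rcases (hl ξ).1 hξ with rfl | ⟨g, hg, rfl⟩
      · exact hsη
      · exact (hηg g hg).2.1⟩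
  have hVsub : Sub T {t | t ∈ D x ∧ ∀ ξ ∈ l, t ∈ A ξ} := by
    refine ⟨fun t ht => hDs.1 ht.1, fun t ht ζ => ⟨hDs.2.1 t ht.1 ζ, fun ξ hξ =>
      (hL.tree ξ).2 t (ht.2 ξ hξ) ζ⟩, fun ε => ?_⟩
    obtain ⟨t, h2, h3, h4⟩ := hV ε
    exact ⟨t, ⟨h2, h4⟩, h3⟩
  obtain ⟨E, hE, hEsub, hEnull⟩ := shrink (h x) (fun g => Kf K (fg g)) (fun g => A (ηg g))
    (fun g hg => (hηg g hg).2.2) _ hVsub (fun g hg t ht => ht.2 _ ((hl _).2 (Or.inr ⟨g, hg, rfl⟩)))
  obtain ⟨w, hw, hwK⟩ := hnn E (fun t ht => (hE ht).2 η ((hl η).2 (Or.inl rfl))) hEsub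
  obtain ⟨g, hg, hgw⟩ := hD2 w (mts_mono (fun t ht => (hE ht).1) hw)
  refine hEnull g hg w hw ?_
  intro g' hg'
  rcases Finset.mem_union.1 hg' with h2 | h2
  · exact hwK g' h2
  · obtain ⟨e', he', rfl⟩ := Finset.mem_image.1 h2
    rw [← Node.flip_flip]
    exact hgw e' he'

end Pool.Agent.MOO.H12
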