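import Pool.Agent.Helper58_MOO.Stmts

/-! PHD: density in the forcing `PH`. -/

open Cardinal
open Pool.Agent.Helper69_LOTS

namespace Pool.Agent.MOO.H12

open Node

theorem exists_lxmax {δ : Om} (s : Finset Node) (hs : s.Nonempty) (h : ∀ a ∈ s, a.ht = δ) :
    ∃ m ∈ s, ∀ a ∈ s, a = m ∨ Lx a m := by
  classical
  induction hs using Finset.Nonempty.cons_induction with
  | singleton a => exact ⟨a, by simp, fun b hb => Or.inl (by simpa using hb)⟩
  | cons a s ha hs ih =>
    obtain ⟨m, hm, h1⟩ := ih (fun b hb => h b (Finset.mem_cons_of_mem hb))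
    have hne : a ≠ m := fun e => ha (e ▸ hm)
    have hht : a.ht = m.ht := by
      rw [h a (Finset.mem_cons_self a s), h m (Finset.mem_cons_of_mem hm)]
    rcases (inc_of_ht_eq hht hne).lx_or with h2 | h2
    · refine ⟨m, Finset.mem_cons_of_mem hm, fun b hb => ?_⟩
      rcases Finset.mem_cons.1 hb with rfl | hb
      · exact Or.inr h2
      · exact h1 b hb
    · refine ⟨a, Finset.mem_cons_self a s, fun b hb => ?_⟩
      rcases Finset.mem_cons.1 hb with rfl | hb
      · exact Or.inl rfl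
      · rcases h1 b hb with rfl | h3
        · exact Or.inr h2
        · exact Or.inr (h3.trans h2)

theorem exists_lxmin {δ : Om} (s : Finset Node) (hs : s.Nonempty) (h : ∀ a ∈ s, a.ht = δ) :
    ∃ m ∈ s, ∀ a ∈ s, a = m ∨ Lx m a := by
  classical
  induction hs using Finset.Nonempty.cons_induction with
  | singleton a => exact ⟨a, by simp, fun b hb => Or.inl (by simpa using hb)⟩
  | cons a s ha hs ih =>
    obtain ⟨m, hm, h1⟩ := ih (fun b hb => h b (Finset.mem_cons_of_mem hb))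
    have hne : a ≠ m := fun e => ha (e ▸ hm)
    have hht : a.ht = m.ht := by
      rw [h a (Finset.mem_cons_self a s), h m (Finset.mem_cons_of_mem hm)]
    rcases (inc_of_ht_eq hht hne).lx_or with h2 | h2
    · refine ⟨a, Finset.mem_cons_self a s, fun b hb => ?_⟩
      rcases Finset.mem_cons.1 hb with rfl | hb
      · exact Or.inl rfl
      · rcases h1 b hb with rfl | h3
        · exact Or.inr h2
        · exact Or.inr (h2.trans h3)
    · refine ⟨m, Finset.mem_cons_of_mem hm, fun b hb => ?_⟩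
      rcases Finset.mem_cons.1 hb with rfl | hb
      · exact Or.inr h2
      · exact h1 b hb

variable {T S : Set Node} {C : Set Om}

/-- Images of incomparable nodes are incomparable. -/
theorem inc_img (p : PH T S C) {a b : Node × Node} (ha : a ∈ p.gr) (hb : b ∈ p.gr)
    (h : Inc a.1 b.1) : Inc a.2 b.2 := by
  have ma := p.mem a ha
  have mb := p.mem b hb
  have key : ∀ ξ ∈ p.lev, ξ ≤ a.1.ht → ξ ≤ b.1.ht → a.1.res ξ ≠ b.1.res ξ → Inc a.2 b.2 := by
    intro ξ hξ h1 h2 hne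
    have e1 := p.res a ha ξ hξ h1
    have e2 := p.res b hb ξ hξ h2
    have h3 : a.2.res ξ ≠ b.2.res ξ := fun e => hne ((p.inj _ e1 _ e2).2 e)
    have h4 : (a.2.res ξ).ht = (b.2.res ξ).ht := by
      rw [res_ht_of_le (by rw [ma.2.2.1]; exact h1), res_ht_of_le (by rw [mb.2.2.1]; exact h2)]
    exact (inc_of_ht_eq h4 h3).mono (res_le _ _) (res_le _ _)
  rcases le_total a.1.ht b.1.ht with h1 | h1
  · refine key a.1.ht ma.2.2.2 le_rfl h1 (fun e => h.1 ?_)
    rw [res_self] at e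
    rw [le_iff_res]
    exact e.symm
  · refine key b.1.ht mb.2.2.2 h1 le_rfl (fun e => h.2 ?_)
    rw [res_self] at e
    rw [le_iff_res]
    exact e

theorem bool3 : ∀ x a b : Bool, x ≠ a → x ≠ b → a ≠ b → False := by decide

theorem lx_iff_not (a b : Node) (h : Inc a b) : Lx a b ↔ ¬ Lx b a :=
  ⟨fun h1 h2 => h1.asymm h2, fun h1 => h.lx_or.resolve_right h1⟩

/-- Adding one pair. -/
theorem addPair (p : PH T S C) (x y : Node) (hx : x ∈ T) (hxl : x.ht ∈ p.lev)
    (hxd : ∀ q ∈ p.gr, q.1 ≠ x) (hy : y ∈ S) (hyh : y.ht = x.ht)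
    (hres : ∀ ξ ∈ p.lev, ξ < x.ht → (x.res ξ, y.res ξ) ∈ p.gr) (hyd : ∀ q ∈ p.gr, q.2 ≠ y)
    (κ : Node → Prop)
    (hκ : ∀ a ∈ p.gr, ∀ b ∈ p.gr, ∀ w, Mt w a.1 b.1 → Lx a.1 b.1 → (Lx a.2 b.2 ↔ κ w))
    (hQ : ∀ q ∈ p.gr, ∀ w, Mt w x q.1 → (Lx x q.1 → (Lx y q.2 ↔ κ w)) ∧
      (Lx q.1 x → (Lx q.2 y ↔ κ w))) :
    ∃ q : PH T S C, q ≤ p ∧ q.lev = p.lev ∧ (x, y) ∈ q.gr := by
  classical
  have hall : ∀ a ∈ insert (x, y) p.gr, ∀ b ∈ insert (x, y) p.gr, ∀ w, Mt w a.1 b.1 →
      Lx a.1 b.1 → (Lx a.2 b.2 ↔ κ w) := by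
    intro a ha b hb w hw hl
    rcases Finset.mem_insert.1 ha with rfl | ha
    · rcases Finset.mem_insert.1 hb with rfl | hb
      · exact absurd hl.inc (fun h => h.1 le_rfl)
      · exact (hQ b hb w hw).1 hl
    · rcases Finset.mem_insert.1 hb with rfl | hb
      · exact (hQ a ha w hw.symm).2 hl
      · exact hκ a ha b hb w hw hl
  refine ⟨⟨p.lev, insert (x, y) p.gr, p.levC, ?_, ?_, ?_, ?_⟩,
    ⟨Finset.Subset.refl _, Finset.subset_insert _ _⟩, rfl, Finset.mem_insert_self _ _⟩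
  · intro a ha
    rcases Finset.mem_insert.1 ha with rfl | ha
    · exact ⟨hx, hy, hyh, hxl⟩
    · exact p.mem a ha
  · intro a ha ξ hξ hle
    rcases Finset.mem_insert.1 ha with rfl | ha
    · rcases hle.lt_or_eq with h1 | h1
      · exact Finset.mem_insert_of_mem (hres ξ hξ h1)
      · simp only at h1 ⊢
        rw [h1, res_self]
        have : y.res x.ht = y := by rw [← hyh]; exact res_self y
        rw [this]
        exact Finset.mem_insert_self _ _
    · exact Finset.mem_insert_of_mem (p.res a ha ξ hξ hle)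
  · intro a ha b hb
    rcases Finset.mem_insert.1 ha with rfl | ha
    · rcases Finset.mem_insert.1 hb with rfl | hb
      · simp
      · simp only
        exact ⟨fun e => absurd e.symm (hxd b hb), fun e => absurd e.symm (hyd b hb)⟩
    · rcases Finset.mem_insert.1 hb with rfl | hb
      · simp only
        exact ⟨fun e => absurd e (hxd a ha), fun e => absurd e (hyd a ha)⟩
      · exact p.inj a ha b hb
  · intro a ha b hb a' ha' b' hb' w hw hw' hl hl' h2
    rw [hall a ha b hb w hw hl] at h2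
    rw [hall a' ha' b' hb' w hw' hl']
    exact h2

/-- One step. `xm` is the restriction of `x` to the previous level (or a node below all). -/
theorem step (hS : AT S) (hD : DenseLev S C) (p : PH T S C) (x xm v : Node) (hx : x ∈ T)
    (hxl : x.ht ∈ p.lev) (hxd : ∀ q ∈ p.gr, q.1 ≠ x) (hxm : xm ≤ x) (hv : v ∈ S)
    (hvh : v.ht = xm.ht) (hlt : xm.ht < x.ht) (hlow : ∀ ξ ∈ p.lev, xm.ht < ξ → x.ht ≤ ξ)
    (hcase : (xm, v) ∈ p.gr ∨ ((∀ q ∈ p.gr, xm ≤ q.1 ∧ v ≤ q.2) ∧ ∀ ξ ∈ p.lev, xm.ht < ξ)) :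
    ∃ q : PH T S C, q ≤ p ∧ q.lev = p.lev ∧ ∃ y, (x, y) ∈ q.gr := by
  classical
  set δ := x.ht with hδ
  -- restriction of old pairs
  have hup : ∀ q ∈ p.gr, xm.ht < q.1.ht → (q.1.res δ, q.2.res δ) ∈ p.gr ∧ (q.1.res δ).ht = δ ∧
      (q.2.res δ).ht = δ := by
    intro q hq hlt'
    have m := p.mem q hq
    have h1 : δ ≤ q.1.ht := hlow _ m.2.2.2 hlt'
    exact ⟨p.res q hq δ hxl h1, res_ht_of_le h1, res_ht_of_le (by rw [m.2.2.1]; exact h1)⟩
  -- position relative to `xm`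
  have hiff : ∀ q ∈ p.gr, q.1.ht = δ → (xm ≤ q.1 ↔ v ≤ q.2) := by
    intro q hq hqh
    rcases hcase with h | h
    · have hml : xm.ht ∈ p.lev := (p.mem _ h).2.2.2
      have h1 := p.res q hq xm.ht hml (by rw [hqh]; exact hlt.le)
      have h2 := p.inj _ h _ h1
      rw [le_iff_res, le_iff_res, hvh]
      simp only at h2
      constructor
      · intro e; exact (h2.1 e.symm).symm
      · intro e; exact (h2.2 e.symm).symm
    · exact ⟨fun _ => (h.1 q hq).2, fun _ => (h.1 q hq).1⟩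
  -- the old sign function
  let κ0 : Node → Prop := fun w => ∃ a ∈ p.gr, ∃ b ∈ p.gr, Mt w a.1 b.1 ∧ Lx a.1 b.1 ∧ Lx a.2 b.2
  have hκ0 : ∀ a ∈ p.gr, ∀ b ∈ p.gr, ∀ w, Mt w a.1 b.1 → Lx a.1 b.1 → (Lx a.2 b.2 ↔ κ0 w) := by
    intro a ha b hb w hw hl
    constructor
    · intro h; exact ⟨a, ha, b, hb, hw, hl, h⟩
    · rintro ⟨a', ha', b', hb', hw', hl', h'⟩
      exact p.sgn a' ha' b' hb' a ha b hb w hw' hw hl' hl h'
  -- proxies
  have hproxy : ∀ y : Node, ∀ a ∈ p.gr, ∀ b ∈ p.gr, ∀ w, Mt w a.1 b.1 → Mt w x b.1 →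
      a.1.val w.ht = x.val w.ht → (Lx y b.2 ↔ Lx a.2 b.2) → (Lx b.2 y ↔ Lx b.2 a.2) →
      (Lx x b.1 → (Lx y b.2 ↔ κ0 w)) ∧ (Lx b.1 x → (Lx b.2 y ↔ κ0 w)) := by
    intro y a ha b hb w hw hwx hval h1 h2
    constructor
    · intro hl
      rw [hwx.lx_iff, ← hval, ← hw.lx_iff] at hl
      rw [h1]
      exact hκ0 a ha b hb w hw hl
    · intro hl
      have hl' : Lx b.1 a.1 := by
        rw [lx_iff_not _ _ hw.inc.symm, hw.lx_iff, hval, ← hwx.lx_iff]
        exact fun h => h.asymm hl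
      rw [h2]
      exact hκ0 b hb a ha w hw.symm hl'
  -- case A
  have hA : ∀ y : Node, v ≤ y → ∀ b ∈ p.gr, ∀ w, Mt w x b.1 → w.ht < xm.ht →
      (xm, v) ∈ p.gr ∧ (Lx x b.1 → (Lx y b.2 ↔ κ0 w)) ∧ (Lx b.1 x → (Lx b.2 y ↔ κ0 w)) := by
    intro y hvy b hb w hw hwm
    have hmt : Mt w xm b.1 := hw.of_le hxm le_rfl hwm hw.2.2.2.1
    rcases hcase with h | h
    · refine ⟨h, ?_⟩
      have hinc : Inc v b.2 := inc_img p h hb hmt.inc
      have h1 : Lx y b.2 ↔ Lx v b.2 :=
        ⟨fun e => e.of_le hvy le_rfl hinc, fun e => e.mono hvy le_rfl⟩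
      have h2 : Lx b.2 y ↔ Lx b.2 v :=
        ⟨fun e => e.of_le le_rfl hvy hinc.symm, fun e => e.mono le_rfl hvy⟩
      exact hproxy y _ h b hb w hmt hw (hxm.2 _ hwm) h1 h2
    · exact absurd (h.1 b hb).1 hmt.inc.1
  -- upper nodes have image above `v`
  let W : Finset (Node × Node) := p.gr.filter (fun q => q.1.ht = δ ∧ xm ≤ q.1)
  have hW : ∀ q, q ∈ W ↔ q ∈ p.gr ∧ q.1.ht = δ ∧ xm ≤ q.1 := by
    intro q; simp [W]
  -- the restriction of an old node meeting `x` above `xm`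
  have hB : ∀ b ∈ p.gr, ∀ w, Mt w x b.1 → xm.ht ≤ w.ht →
      (b.1.res δ, b.2.res δ) ∈ W ∧ Mt w x (b.1.res δ) := by
    intro b hb w hw hwm
    have h1 : xm.ht < b.1.ht := hwm.trans_lt hw.2.2.2.1
    obtain ⟨h2, h3, h4⟩ := hup b hb h1
    have hwδ : w.ht < δ := hw.2.2.1
    have h5 : Mt w x (b.1.res δ) := by
      refine hw.of_le le_rfl (res_le _ _) hw.2.2.1 ?_
      rw [h3]; exact hwδ
    refine ⟨(hW _).2 ⟨h2, h3, ?_⟩, h5⟩
    exact (le_of_le_le hxm hw.1 hwm).trans h5.2.1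
  have hresY : ∀ y : Node, y.ht = δ → v ≤ y → ∀ ξ ∈ p.lev, ξ < δ → (x.res ξ, y.res ξ) ∈ p.gr := by
    intro y hyh hvy ξ hξ hξδ
    have h1 : ξ ≤ xm.ht := not_lt.1 (fun h => absurd (hlow ξ hξ h) (not_le.2 hξδ))
    rcases hcase with h | h
    · have h2 := p.res _ h ξ hξ h1
      rw [res_eq_of_le hxm h1, res_eq_of_le hvy (by rw [hvh]; exact h1)]
      exact h2
    · exact absurd (h.2 ξ hξ) (not_lt.2 h1)
  by_cases hWe : W.Nonempty
  swap
  · -- no node of the domain above `xm` at level `δ`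
    obtain ⟨y, hy, hvy, hyh⟩ := hS.ext v hv δ (by rw [hvh]; exact hlt.le)
    have hnoW : ∀ q, q ∉ W := fun q hq => hWe ⟨q, hq⟩
    refine Exists.imp (fun q h => ⟨h.1, h.2.1, y, h.2.2⟩)
      (addPair p x y hx hxl hxd hy hyh (hresY y hyh hvy) ?_ κ0 hκ0 ?_)
    · intro q hq e
      have hqh : q.1.ht = δ := by rw [← (p.mem q hq).2.2.1, e]; exact hyh
      exact hnoW q ((hW q).2 ⟨hq, hqh, (hiff q hq hqh).2 (by rw [e]; exact hvy)⟩)
    · intro q hq w hw
      rcases lt_or_ge w.ht xm.ht with h1 | h1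
      · exact (hA y hvy q hq w hw h1).2
      · exact absurd (hB q hq w hw h1).1 (hnoW _)
  · -- meets of `x` with the nodes of `W`
    have hm0 : ∀ q : Node × Node, ∃ w, q ∈ W → Mt w x q.1 := by
      intro q
      by_cases hq : q ∈ W
      · have h1 := (hW q).1 hq
        obtain ⟨w, hw⟩ := (inc_of_ht_eq (s := x) (t := q.1) h1.2.1.symm
          (hxd q h1.1).symm).exists_mt
        exact ⟨w, fun _ => hw⟩
      · exact ⟨x, fun h => absurd h hq⟩
    choose m hm using hm0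
    obtain ⟨q0, hq0, hmax⟩ := Finset.exists_max_image W (fun q => (m q).ht) hWe
    set w0 := m q0 with hw0
    have hMt0 : Mt w0 x q0.1 := hm q0 hq0
    have hmax' : ∀ q ∈ W, ∀ w, Mt w x q.1 → w.ht ≤ w0.ht := by
      intro q hq w hw
      rw [hw.unique (hm q hq)]
      exact hmax q hq
    have hxw0 : xm.ht ≤ w0.ht := by
      by_contra hcon
      push Not at hcon
      have h1 := ((hW q0).1 hq0).2.2
      apply hMt0.2.2.2.2
      rw [← hxm.2 _ hcon, ← h1.2 _ hcon]
    -- `w0` is not an old meet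
    have hagree : ∀ q ∈ W, w0 ≤ q.1 → w0.ht < q.1.ht → x.val w0.ht ≠ q.1.val w0.ht := by
      intro q hq hle hlt' he
      have h1 := hm q hq
      have h2 : (m q).ht ≤ w0.ht := hmax q hq
      rcases h2.lt_or_eq with h3 | h3
      · apply h1.2.2.2.2
        rw [← hMt0.1.2 _ h3, ← hle.2 _ h3]
      · apply h1.2.2.2.2
        rw [h3]
        exact he
    have hnew : ∀ a ∈ p.gr, ∀ b ∈ p.gr, ¬ Mt w0 a.1 b.1 := by
      intro a ha b hb hw
      have hw0δ : w0.ht < δ := hMt0.2.2.1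
      have key : ∀ c ∈ p.gr, w0 ≤ c.1 → w0.ht < c.1.ht →
          x.val w0.ht ≠ c.1.val w0.ht := by
        intro c hc hle hlt'
        obtain ⟨h2, h3, h4⟩ := hup c hc (hxw0.trans_lt hlt')
        have h5 : w0 ≤ c.1.res δ := le_res hle hw0δ.le
        have h6 : (c.1.res δ, c.2.res δ) ∈ W :=
          (hW _).2 ⟨h2, h3, (le_of_le_le hxm hMt0.1 hxw0).trans h5⟩
        have h7 := hagree _ h6 h5 (by simp only; rw [h3]; exact hw0δ)
        simp only [res_val_of_lt hw0δ] at h7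
        exact h7
      have h1 := key a ha hw.1 hw.2.2.1
      have h2 := key b hb hw.2.1 hw.2.2.2.1
      have h3 := hw.2.2.2.2
      exact bool3 _ _ _ h1 h2 h3
    -- the block
    let W0 : Finset (Node × Node) := W.filter (fun q => Mt w0 x q.1)
    have hW0 : ∀ q, q ∈ W0 ↔ q ∈ W ∧ Mt w0 x q.1 := by intro q; simp [W0]
    have hhtW : ∀ q ∈ W, q.2.ht = δ := fun q hq => by
      rw [(p.mem q ((hW q).1 hq).1).2.2.1]; exact ((hW q).1 hq).2.1
    obtain ⟨M, hM, hMmax⟩ := exists_lxmax (δ := δ) (W0.image Prod.snd)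
      ⟨q0.2, Finset.mem_image_of_mem _ ((hW0 q0).2 ⟨hq0, hMt0⟩)⟩ (by
        intro a ha
        obtain ⟨q, hq, rfl⟩ := Finset.mem_image.1 ha
        exact hhtW q ((hW0 q).1 hq).1)
    obtain ⟨qM, hqM, rfl⟩ := Finset.mem_image.1 hM
    have hqMW := (hW0 qM).1 hqM
    have hqMgr := ((hW qM).1 hqMW.1)
    have hMmem := p.mem qM hqMgr.1
    have hvM : v ≤ qM.2 := (hiff qM hqMgr.1 hqMgr.2.1).1 hqMgr.2.2
    have hMδ : qM.2.ht = δ := hhtW qM hqMW.1
    -- nodes of `W` outside the block: same position with respect to the whole block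
    have hout : ∀ b ∈ W, ∀ w, Mt w x b.1 → w ≠ w0 → Mt w qM.1 b.1 ∧ qM.1.val w.ht = x.val w.ht := by
      intro b hb w hw hne
      have h1 : w.ht < w0.ht := by
        refine lt_of_le_of_ne (hmax' b hb w hw) (fun e => hne ?_)
        exact eq_of_le_of_ht (le_of_le_le hw.1 hMt0.1 e.le) e
      have h2 : qM.1.val w.ht = x.val w.ht := by
        rw [← hqMW.2.2.1.2 _ h1, ← hMt0.1.2 _ h1]
      have h3 : w ≤ w0 := le_of_le_le hw.1 hMt0.1 h1.le
      refine ⟨⟨h3.trans hqMW.2.2.1, hw.2.1, h1.trans hqMW.2.2.2.2.1, hw.2.2.2.1, ?_⟩, h2⟩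
      rw [h2]
      exact hw.2.2.2.2
    -- choice of `y`
    have hychoice : ∃ y ∈ S, y.ht = δ ∧ v ≤ y ∧ Lx qM.2 y ∧
        ∀ b ∈ W, Lx qM.2 b.2 → b ∉ W0 → Lx y b.2 := by
      let N : Finset Node := (W.filter (fun q => Lx qM.2 q.2 ∧ q ∉ W0)).image Prod.snd
      have hN : ∀ a, a ∈ N ↔ ∃ q ∈ W, (Lx qM.2 q.2 ∧ q ∉ W0) ∧ q.2 = a := by
        intro a
        simp only [N, Finset.mem_image, Finset.mem_filter]
        constructor
        · rintro ⟨q, ⟨h1, h2⟩, h3⟩; exact ⟨q, h1, h2, h3⟩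
        · rintro ⟨q, h1, h2, h3⟩; exact ⟨q, ⟨h1, h2⟩, h3⟩
      by_cases hNe : N.Nonempty
      · obtain ⟨n, hn, hnmin⟩ := exists_lxmin (δ := δ) N hNe (by
          intro a ha
          obtain ⟨q, hq, -, rfl⟩ := (hN a).1 ha
          exact hhtW q hq)
        obtain ⟨qn, hqn, ⟨hqn1, hqn2⟩, rfl⟩ := (hN n).1 hn
        have hqngr := (hW qn).1 hqn
        have hvn : v ≤ qn.2 := (hiff qn hqngr.1 hqngr.2.1).1 hqngr.2.2
        obtain ⟨y, hy, hyh, hvy, h1, h2⟩ := hD.mid δ (p.levC δ hxl) v hv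
          (by rw [hvh]; exact hlt) qM.2 hMmem.2.1 qn.2 (p.mem qn hqngr.1).2.1 hMδ
          (hhtW qn hqn) hvM hvn hqn1
        refine ⟨y, hy, hyh, hvy, h1, fun b hb hl hb0 => ?_⟩
        rcases hnmin b.2 ((hN _).2 ⟨b, hb, ⟨hl, hb0⟩, rfl⟩) with h3 | h3
        · rw [h3]; exact h2
        · exact h2.trans h3
      · obtain ⟨y, hy, hyh, hvy, h1⟩ := hD.right δ (p.levC δ hxl) v hv
          (by rw [hvh]; exact hlt) qM.2 hMmem.2.1 hMδ hvM
        refine ⟨y, hy, hyh, hvy, h1, fun b hb hl hb0 => ?_⟩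
        exact absurd ⟨b.2, (hN _).2 ⟨b, hb, ⟨hl, hb0⟩, rfl⟩⟩ hNe
    obtain ⟨y, hy, hyh, hvy, hMy, hyout⟩ := hychoice
    have hblock : ∀ b ∈ W0, Lx b.2 y := by
      intro b hb
      rcases hMmax b.2 (Finset.mem_image_of_mem _ hb) with h1 | h1
      · rw [h1]; exact hMy
      · exact h1.trans hMy
    -- position of `y` with respect to nodes outside the block
    have hpos : ∀ b ∈ W, b ∉ W0 → (Lx y b.2 ↔ Lx qM.2 b.2) ∧ (Lx b.2 y ↔ Lx b.2 qM.2) := by
      intro b hb hb0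
      have hgr := (hW b).1 hb
      have hw := hm b hb
      have hne : m b ≠ w0 := fun e => hb0 ((hW0 b).2 ⟨hb, e ▸ hw⟩)
      have hinc : Inc qM.2 b.2 := inc_img p hqMgr.1 hgr.1 (hout b hb _ hw hne).1.inc
      rcases hinc.lx_or with h1 | h1
      · have h2 := hyout b hb h1 hb0
        exact ⟨⟨fun _ => h1, fun _ => h2⟩,
          ⟨fun h => absurd h2 (fun h' => h.asymm h'), fun h => absurd h1 (fun h' => h.asymm h')⟩⟩
      · have h2 : Lx b.2 y := h1.trans hMy
        exact ⟨⟨fun h => absurd h2 (fun h' => h.asymm h'),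
          fun h => absurd h1 (fun h' => h.asymm h')⟩, ⟨fun _ => h1, fun _ => h2⟩⟩
    have hyW : ∀ b ∈ W, b.2 ≠ y := by
      intro b hb e
      by_cases hb0 : b ∈ W0
      · have := hblock b hb0
        rw [e] at this
        exact this.asymm this
      · have hw := hm b hb
        have hne : m b ≠ w0 := fun e => hb0 ((hW0 b).2 ⟨hb, e ▸ hw⟩)
        have hinc : Inc qM.2 b.2 := inc_img p hqMgr.1 ((hW b).1 hb).1 (hout b hb _ hw hne).1.inc
        obtain ⟨h1, h2⟩ := hpos b hb hb0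
        rcases hinc.lx_or with h3 | h3
        · have := h1.2 h3
          rw [e] at this
          exact this.asymm this
        · have := h2.2 h3
          rw [e] at this
          exact this.asymm this
    let κ : Node → Prop := fun w => if w = w0 then x.val w0.ht = true else κ0 w
    have hκne : ∀ w, w ≠ w0 → (κ w ↔ κ0 w) := fun w hw => by simp only [κ, if_neg hw]
    have hκeq : κ w0 ↔ x.val w0.ht = true := by simp only [κ, if_true]
    refine Exists.imp (fun q h => ⟨h.1, h.2.1, y, h.2.2⟩)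
      (addPair p x y hx hxl hxd hy hyh (hresY y hyh hvy) ?_ κ ?_ ?_)
    · intro q hq e
      have hqh : q.1.ht = δ := by rw [← (p.mem q hq).2.2.1, e]; exact hyh
      exact hyW q ((hW q).2 ⟨hq, hqh, (hiff q hq hqh).2 (by rw [e]; exact hvy)⟩) e
    · intro a ha b hb w hw hl
      have hne : w ≠ w0 := fun e => hnew a ha b hb (e ▸ hw)
      rw [hκne w hne]
      exact hκ0 a ha b hb w hw hl
    · intro b hb w hw
      rcases lt_or_ge w.ht xm.ht with h1 | h1
      · have hne : w ≠ w0 := fun e => by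
          rw [e] at h1
          exact absurd hxw0 (not_le.2 h1)
        rw [hκne w hne]
        exact (hA y hvy b hb w hw h1).2
      · obtain ⟨h2, h3⟩ := hB b hb w hw h1
        have hb2 : b.2.res δ ≤ b.2 := res_le _ _
        have hb1 : b.1.res δ ≤ b.1 := res_le _ _
        by_cases hne : w = w0
        · subst hne
          have h4 : Lx (b.2.res δ) y := hblock _ ((hW0 _).2 ⟨h2, h3⟩)
          have h5 : Lx b.2 y := h4.mono hb2 le_rfl
          rw [hκeq]
          constructor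
          · intro hl
            rw [hw.lx_iff] at hl
            rw [hl]
            exact ⟨fun h => absurd h5 (fun h' => h.asymm h'), fun h => absurd h (by decide)⟩
          · intro hl
            refine ⟨fun _ => ?_, fun _ => h5⟩
            rw [hw.symm.lx_iff] at hl
            exact hw.symm.val_true hl
        · rw [hκne w hne]
          have hb0 : (b.1.res δ, b.2.res δ) ∉ W0 := fun h =>
            hne (h3.unique ((hW0 _).1 h).2)
          obtain ⟨h4, h5⟩ := hout _ h2 w h3 hne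
          obtain ⟨h6, h7⟩ := hpos _ h2 hb0
          simp only at h4 h6 h7
          have h8 : Mt w qM.1 b.1 := h4.mono le_rfl hb1
          have hinc : Inc qM.2 (b.2.res δ) := inc_img p hqMgr.1 ((hW _).1 h2).1 h4.inc
          have hincy : Inc y (b.2.res δ) := by
            rcases hinc.lx_or with h9 | h9
            · exact (h6.2 h9).inc
            · exact (h7.2 h9).inc.symm
          have e1 : Lx y b.2 ↔ Lx qM.2 b.2 := by
            constructor
            · intro h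
              exact (h6.1 (h.of_le le_rfl hb2 hincy)).mono le_rfl hb2
            · intro h
              exact (h6.2 (h.of_le le_rfl hb2 hinc)).mono le_rfl hb2
          have e2 : Lx b.2 y ↔ Lx b.2 qM.2 := by
            constructor
            · intro h
              exact (h7.1 (h.of_le hb2 le_rfl hincy.symm)).mono hb2 le_rfl
            · intro h
              exact (h7.2 (h.of_le hb2 le_rfl hinc.symm)).mono hb2 le_rfl
          exact hproxy y qM hqMgr.1 b hb w h8 hw h5 e1 e2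

theorem main (hT : AT T) (hS : AT S) (hD : DenseLev S C) :
    ∀ n : ℕ, ∀ (p : PH T S C) (x : Node), x ∈ T → x.ht ∈ p.lev →
      (p.lev.filter (fun ξ => ξ < x.ht)).card = n →
      ∃ q : PH T S C, q ≤ p ∧ q.lev = p.lev ∧ ∃ y, (x, y) ∈ q.gr := by
  classical
  intro n
  induction n using Nat.strong_induction_on with
  | _ n ih =>
    intro p x hx hxl hn
    by_cases hxd : ∃ q ∈ p.gr, q.1 = x
    · obtain ⟨q, hq, rfl⟩ := hxd
      exact ⟨p, le_rfl, rfl, q.2, hq⟩
    by_cases hlow : (p.lev.filter (fun ξ => ξ < x.ht)).Nonempty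
    · -- previous level
      obtain ⟨d, hd, hdmax⟩ := Finset.exists_max_image _ id hlow
      obtain ⟨hd1, hd2⟩ := Finset.mem_filter.1 hd
      have hdh : (x.res d).ht = d := res_ht_of_le hd2.le
      obtain ⟨p1, hp1, hl1, v, hv⟩ := ih (p.lev.filter (fun ξ => ξ < (x.res d).ht)).card (by
        rw [← hn]
        refine Finset.card_lt_card ⟨?_, ?_⟩
        · intro ξ hξ
          rw [Finset.mem_filter, hdh] at hξ
          exact Finset.mem_filter.2 ⟨hξ.1, hξ.2.trans hd2⟩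
        · intro hcon
          have := hcon hd
          rw [Finset.mem_filter, hdh] at this
          exact lt_irrefl _ this.2) p (x.res d) (hT.down x hx d) (by rw [hdh]; exact hd1) rfl
      by_cases hxd1 : ∃ q ∈ p1.gr, q.1 = x
      · obtain ⟨q, hq, rfl⟩ := hxd1
        exact ⟨p1, hp1, hl1, q.2, hq⟩
      push Not at hxd1
      have hvm := p1.mem _ hv
      simp only at hvm
      obtain ⟨q, hq, hl, y, hy⟩ := step hS hD p1 x (x.res d) v hx (by rw [hl1]; exact hxl) hxd1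
        (res_le _ _) hvm.2.1 hvm.2.2.1 (by rw [hdh]; exact hd2) (by
          intro ξ hξ hlt
          rw [hdh] at hlt
          by_contra hcon
          push Not at hcon
          rw [hl1] at hξ
          exact absurd (hdmax ξ (Finset.mem_filter.2 ⟨hξ, hcon⟩)) (not_le.2 hlt)) (Or.inl hv)
      exact ⟨q, hq.trans hp1, hl.trans hl1, y, hy⟩
    · -- first level
      push Not at hxd
      have hlow' : ∀ ξ ∈ p.lev, x.ht ≤ ξ := by
        intro ξ hξ
        by_contra hcon
        push Not at hcon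
        exact hlow ⟨ξ, Finset.mem_filter.2 ⟨hξ, hcon⟩⟩
      have hlim := hD.lim _ (p.levC _ hxl)
      obtain ⟨o, -, ho⟩ := Om_least (p := fun _ : Om => True) ⟨x.ht, trivial⟩
      have ho' : ∀ ξ : Om, o ≤ ξ := fun ξ => not_lt.1 (fun h => ho ξ h trivial)
      have hox : o < x.ht := by
        obtain ⟨ξ, hξ⟩ := hlim.1
        exact (ho' ξ).trans_lt hξ
      obtain ⟨s, hs⟩ := hS.ne
      have h1 : (x.res o).ht = o := res_ht_of_le hox.le
      have h2 : (s.res o).ht = o := res_ht_of_le (ho' _)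
      have hroot : ∀ a b : Node, a.ht = o → a ≤ b := by
        intro a b ha
        exact ⟨by rw [ha]; exact ho' _, fun η hη => absurd hη (by
          rw [ha]; exact not_lt.2 (ho' _))⟩
      exact step hS hD p x (x.res o) (s.res o) hx hxl hxd (res_le _ _) (hS.down s hs o)
        (by rw [h1, h2]) (by rw [h1]; exact hox) (fun ξ hξ _ => hlow' ξ hξ)
        (Or.inr ⟨fun q _ => ⟨hroot _ _ h1, hroot _ _ h2⟩, fun ξ hξ => by
          rw [h1]; exact hox.trans_le (hlow' ξ hξ)⟩)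

theorem phd : PhdStmt := by
  intro T S C hT hS hD p x hx hxl
  obtain ⟨q, hq, -, y, hy⟩ := main hT hS hD _ p x hx hxl rfl
  exact ⟨q, hq, y, hy⟩

end Pool.Agent.MOO.H12
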